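import Pool.Agent.helper75.S6D.All

/-!
At least 98 percent of the Salem numbers of degree 6 are Parry numbers.
-/

set_option autoImplicit false

namespace Pool.Agent.Results.MP_2b41e9_nt.DegreeSix

/-- Salem number (exactly as in the frozen statement S16397). -/
def IsSalem (β : ℝ) : Prop :=
  IsIntegral ℤ β ∧ 1 < β ∧
    (∀ z : ℂ, Polynomial.aeval z (minpoly ℤ β) = 0 → z ≠ (β : ℂ) → ‖z‖ ≤ 1) ∧
    ∃ z : ℂ, Polynomial.aeval z (minpoly ℤ β) = 0 ∧ ‖z‖ = 1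

/-- The remainders of the greedy expansion of 1 to the base γ (as in S16397, for p = 1). -/
noncomputable def greedy (γ : ℝ) : ℕ → ℝ
  | 0 => 1
  | n + 1 => γ * greedy γ n - (⌊γ * greedy γ n⌋ : ℝ)

/-- The digits t_1, t_2, ... of the greedy expansion of 1 to the base γ: `digit γ n` is t_(n+1). -/
noncomputable def digit (γ : ℝ) (n : ℕ) : ℤ := ⌊γ * greedy γ n⌋

/-- γ is a Parry number: the digits of the greedy expansion of 1 are eventually periodic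
(the conclusion of S16397 for p = 1). -/
def IsParry (γ : ℝ) : Prop := ∃ N T : ℕ, 0 < T ∧ ∀ n, N ≤ n → digit γ (n + T) = digit γ n

/-- The greedy expansion of 1 to the base γ is t_1 (t_2 ... t_(T+1))^∞ for some T with 1 ≤ T ≤ 3000. -/
def Short (γ : ℝ) : Prop := ∃ T : ℕ, 1 ≤ T ∧ T ≤ 3000 ∧ ∀ n, 1 ≤ n → digit γ (n + T) = digit γ n

/-- The set of the Salem numbers of degree 6 which are at most X. -/
def Salems (X : ℝ) : Set ℝ := {β | IsSalem β ∧ (minpoly ℤ β).natDegree = 6 ∧ β ≤ X}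

theorem greedy_eq (γ : ℝ) (n : ℕ) : greedy γ n = Pool.Agent.PSA.rmd γ n := by
  induction n with
  | zero => rfl
  | succ n ih =>
    change γ * greedy γ n - (⌊γ * greedy γ n⌋ : ℝ) = γ * Pool.Agent.PSA.rmd γ n - (⌊γ * Pool.Agent.PSA.rmd γ n⌋ : ℝ)
    rw [ih]

theorem short_of {γ : ℝ} (h : Pool.Agent.S6D.PerB 3000 γ) : Short γ := by
  obtain ⟨T, h1, h2, h⟩ := h
  refine ⟨T, h1, h2, fun n hn => ?_⟩
  unfold digit
  rw [greedy_eq, greedy_eq, h n hn]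

theorem result : ∃ X₀ : ℝ, ∀ X : ℝ, X₀ ≤ X → (Salems X).Finite ∧
    49 / 50 * ((Salems X).ncard : ℝ) ≤ ({β | β ∈ Salems X ∧ IsParry β ∧ Short β}.ncard : ℝ) := by
  obtain ⟨X₀, H⟩ := Pool.Agent.S6D.ALL_final
  refine ⟨X₀, fun X hX => ?_⟩
  obtain ⟨hf, h⟩ := H X hX
  refine ⟨hf, h.trans ?_⟩
  have hsub : Pool.Agent.PSA.SS 6 X ∩ {β | Pool.Agent.S6D.PerB 3000 β} ⊆ {β | β ∈ Salems X ∧ IsParry β ∧ Short β} := by
    rintro β ⟨h1, h2⟩
    have h3 := short_of h2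
    obtain ⟨T, h4, -, h5⟩ := id h3
    exact ⟨h1, ⟨1, T, h4, h5⟩, h3⟩
  have hfin : {β | β ∈ Salems X ∧ IsParry β ∧ Short β}.Finite := Set.Finite.subset hf fun β hβ => hβ.1
  exact_mod_cast Set.ncard_le_ncard hsub hfin

end Pool.Agent.Results.MP_2b41e9_nt.DegreeSix
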