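import Pool.Agent.helper75.PSA.All

/-!
For every Salem number β a positive proportion of the powers β ^ N are Parry numbers; the
proportion is bounded below by a constant which depends only on the degree of β.
-/

set_option autoImplicit false

namespace Pool.Agent.Results.MP_2b41e9_nt.ParryPowers

/-- Salem number (exactly as in the frozen statement S16397). -/
def IsSalem (β : ℝ) : Prop :=
  IsIntegral ℤ β ∧ 1 < β ∧
    (∀ z : ℂ, Polynomial.aeval z (minpoly ℤ β) = 0 → z ≠ (β : ℂ) → ‖z‖ ≤ 1) ∧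
    ∃ z : ℂ, Polynomial.aeval z (minpoly ℤ β) = 0 ∧ ‖z‖ = 1

/-- The remainders of the greedy expansion of 1 to the base γ (as in S16397, for p = 1). -/
noncomputable def greedy (γ : ℝ) : ℕ → ℝ
  | 0 => 1
  | n + 1 => γ * greedy γ n - (⌊γ * greedy γ n⌋ : ℝ)

/-- The digits t_1, t_2, ... of the greedy expansion of 1 to the base γ: `digit γ n` is t_(n+1). -/
noncomputable def digit (γ : ℝ) (n : ℕ) : ℤ := ⌊γ * greedy γ n⌋

/-- γ is a Parry number: the digits of the greedy expansion of 1 are eventually periodic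
(the conclusion of S16397 for p = 1). -/
def IsParry (γ : ℝ) : Prop := ∃ N T : ℕ, 0 < T ∧ ∀ n, N ≤ n → digit γ (n + T) = digit γ n

/-- The greedy expansion of 1 to the base γ is t_1 (t_2 ... t_d)^∞. -/
def Short (d : ℕ) (γ : ℝ) : Prop := ∀ n, 1 ≤ n → digit γ (n + (d - 1)) = digit γ n

theorem greedy_eq (γ : ℝ) (n : ℕ) : greedy γ n = Pool.Agent.PSA.rmd γ n := by
  induction n with
  | zero => rfl
  | succ n ih =>
    change γ * greedy γ n - (⌊γ * greedy γ n⌋ : ℝ) = γ * Pool.Agent.PSA.rmd γ n - (⌊γ * Pool.Agent.PSA.rmd γ n⌋ : ℝ)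
    rw [ih]

theorem short_of {d : ℕ} {γ : ℝ} (h : Pool.Agent.PSA.Short d γ) : Short d γ := by
  intro n hn
  unfold digit
  rw [greedy_eq, greedy_eq, h n hn]

theorem result : ∀ d : ℕ, ∃ δ : ℝ, 0 < δ ∧ ∀ β : ℝ, IsSalem β → (minpoly ℤ β).natDegree = d →
    ∃ X₀ : ℕ, ∀ X : ℕ, X₀ ≤ X → ∀ s : ℕ,
      δ * X ≤ ({N : ℕ | s ≤ N ∧ N < s + X ∧ IsSalem (β ^ N) ∧ (minpoly ℤ (β ^ N)).natDegree = d ∧
        IsParry (β ^ N) ∧ Short d (β ^ N)}.ncard : ℝ) := by
  classical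
  intro d
  obtain ⟨δ, hδ, H⟩ := Pool.Agent.PSA.ALL_PR1 d
  refine ⟨δ / 2, half_pos hδ, fun β hβ hd => ?_⟩
  obtain ⟨X₀, hX₀⟩ := H β hβ hd
  have h4 : 4 ≤ d := hd ▸ Pool.Agent.PSA.ALL_deg β hβ
  refine ⟨max X₀ ⌈2 / δ⌉₊, fun X hX s => ?_⟩
  have h1 := hX₀ X ((le_max_left _ _).trans hX) s
  have h2 : 2 / δ ≤ X := (Nat.le_ceil _).trans (by exact_mod_cast (le_max_right _ _).trans hX)
  rw [div_le_iff₀ hδ] at h2
  have hfin : {N : ℕ | s ≤ N ∧ N < s + X ∧ IsSalem (β ^ N) ∧ (minpoly ℤ (β ^ N)).natDegree = d ∧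
      IsParry (β ^ N) ∧ Short d (β ^ N)}.Finite :=
    (Finset.finite_toSet (Finset.Ico s (s + X))).subset fun N hN => by
      rw [Finset.mem_coe, Finset.mem_Ico]
      exact ⟨hN.1, hN.2.1⟩
  have hsub : (((Finset.Ico s (s + X)).filter (fun N => Pool.Agent.PSA.Short d (β ^ N))) : Set ℕ) ⊆
      insert 0 {N : ℕ | s ≤ N ∧ N < s + X ∧ IsSalem (β ^ N) ∧ (minpoly ℤ (β ^ N)).natDegree = d ∧
        IsParry (β ^ N) ∧ Short d (β ^ N)} := by
    intro N hN
    rw [Finset.mem_coe, Finset.mem_filter, Finset.mem_Ico] at hN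
    rcases Nat.eq_zero_or_pos N with h0 | h0
    · exact Or.inl h0
    · right
      obtain ⟨hs, hdeg⟩ := Pool.Agent.PSA.ALL_PWS β hβ N h0
      exact ⟨hN.1.1, hN.1.2, hs, hdeg.trans hd, ⟨1, d - 1, by omega, short_of hN.2⟩, short_of hN.2⟩
  have hcard := Set.ncard_le_ncard hsub (hfin.insert 0)
  rw [Set.ncard_coe_finset] at hcard
  have hcard2 := hcard.trans (Set.ncard_insert_le 0 _)
  have hcard' : (((Finset.Ico s (s + X)).filter (fun N => Pool.Agent.PSA.Short d (β ^ N))).card : ℝ) ≤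
      ({N : ℕ | s ≤ N ∧ N < s + X ∧ IsSalem (β ^ N) ∧ (minpoly ℤ (β ^ N)).natDegree = d ∧
        IsParry (β ^ N) ∧ Short d (β ^ N)}.ncard : ℝ) + 1 := by
    exact_mod_cast hcard2
  linarith

end Pool.Agent.Results.MP_2b41e9_nt.ParryPowers
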