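import Pool.Agent.helper75.PSA.All

/-!
A positive proportion of the Salem numbers of every fixed degree are Parry numbers.
-/

set_option autoImplicit false

namespace Pool.Agent.Results.MP_2b41e9_nt.PositiveProportion

/-- Salem number (exactly as in the frozen statement S16397). -/
def IsSalem (β : ℝ) : Prop :=
  IsIntegral ℤ β ∧ 1 < β ∧
    (∀ z : ℂ, Polynomial.aeval z (minpoly ℤ β) = 0 → z ≠ (β : ℂ) → ‖z‖ ≤ 1) ∧
    ∃ z : ℂ, Polynomial.aeval z (minpoly ℤ β) = 0 ∧ ‖z‖ = 1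

/-- The remainders of the greedy expansion of 1 to the base γ (as in S16397, for p = 1). -/
noncomputable def greedy (γ : ℝ) : ℕ → ℝ
  | 0 => 1
  | n + 1 => γ * greedy γ n - (⌊γ * greedy γ n⌋ : ℝ)

/-- The digits t_1, t_2, ... of the greedy expansion of 1 to the base γ: `digit γ n` is t_(n+1). -/
noncomputable def digit (γ : ℝ) (n : ℕ) : ℤ := ⌊γ * greedy γ n⌋

/-- γ is a Parry number: the digits of the greedy expansion of 1 are eventually periodic
(the conclusion of S16397 for p = 1). -/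
def IsParry (γ : ℝ) : Prop := ∃ N T : ℕ, 0 < T ∧ ∀ n, N ≤ n → digit γ (n + T) = digit γ n

/-- The greedy expansion of 1 to the base γ is t_1 (t_2 ... t_d)^∞. -/
def Short (d : ℕ) (γ : ℝ) : Prop := ∀ n, 1 ≤ n → digit γ (n + (d - 1)) = digit γ n

/-- The set of the Salem numbers of degree d which are at most X. -/
def Salems (d : ℕ) (X : ℝ) : Set ℝ := {β | IsSalem β ∧ (minpoly ℤ β).natDegree = d ∧ β ≤ X}

theorem greedy_eq (γ : ℝ) (n : ℕ) : greedy γ n = Pool.Agent.PSA.rmd γ n := by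
  induction n with
  | zero => rfl
  | succ n ih =>
    change γ * greedy γ n - (⌊γ * greedy γ n⌋ : ℝ) = γ * Pool.Agent.PSA.rmd γ n - (⌊γ * Pool.Agent.PSA.rmd γ n⌋ : ℝ)
    rw [ih]

theorem short_of {d : ℕ} {γ : ℝ} (h : Pool.Agent.PSA.Short d γ) : Short d γ := by
  intro n hn
  unfold digit
  rw [greedy_eq, greedy_eq, h n hn]

theorem result : ∀ d : ℕ, ∃ δ : ℝ, 0 < δ ∧ ∃ X₀ : ℝ, ∀ X : ℝ, X₀ ≤ X → (Salems d X).Finite ∧
    δ * ((Salems d X).ncard : ℝ) ≤ ({β | β ∈ Salems d X ∧ IsParry β ∧ Short d β}.ncard : ℝ) := by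
  intro d
  obtain ⟨δ, hδ, X₀, H⟩ := Pool.Agent.PSA.ALL_PR2 d
  refine ⟨δ, hδ, X₀, fun X hX => ?_⟩
  obtain ⟨hf, h⟩ := H X hX
  refine ⟨hf, h.trans ?_⟩
  have hsub : Pool.Agent.PSA.SS d X ∩ {β | Pool.Agent.PSA.Short d β} ⊆
      {β | β ∈ Salems d X ∧ IsParry β ∧ Short d β} := by
    rintro β ⟨h1, h2⟩
    have h4 : 4 ≤ d := h1.2.1 ▸ Pool.Agent.PSA.ALL_deg β h1.1
    exact ⟨h1, ⟨1, d - 1, by omega, short_of h2⟩, short_of h2⟩
  have hfin : {β | β ∈ Salems d X ∧ IsParry β ∧ Short d β}.Finite := Set.Finite.subset hf fun β hβ => hβ.1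
  exact_mod_cast Set.ncard_le_ncard hsub hfin

end Pool.Agent.Results.MP_2b41e9_nt.PositiveProportion
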