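import Pool.Agent.helper54.TS.All

/-!
Alternate bases whose product is a Salem number β: replacing suitable entries by three entries
gives a Parry base.
-/

set_option autoImplicit false

namespace Pool.Agent.Results.MP_2b41e9_nt.ThreeSplit

/-- Salem number (exactly as in the frozen statement S16397). -/
def IsSalem (β : ℝ) : Prop :=
  IsIntegral ℤ β ∧ 1 < β ∧
    (∀ z : ℂ, Polynomial.aeval z (minpoly ℤ β) = 0 → z ≠ (β : ℂ) → ‖z‖ ≤ 1) ∧
    ∃ z : ℂ, Polynomial.aeval z (minpoly ℤ β) = 0 ∧ ‖z‖ = 1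

/-- Alternate base (b 0, ..., b (p-1)) of real numbers > 1 with product β, indices mod p. -/
def IsAlt (β : ℝ) (p : ℕ) (b : ℕ → ℝ) : Prop :=
  0 < p ∧ (∀ n, b (n + p) = b n) ∧ (∀ n, 1 < b n) ∧ β = ∏ i ∈ Finset.range p, b i

/-- All entries lie in ℚ(β). -/
def InField (β : ℝ) (b : ℕ → ℝ) : Prop :=
  ∀ n, b n ∈ IntermediateField.adjoin ℚ ({β} : Set ℝ)

/-- r is the sequence of remainders of the greedy expansion of 1 for the i-th shift of b. -/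
def IsGreedy (b : ℕ → ℝ) (i : ℕ) (r : ℕ → ℝ) : Prop :=
  r 0 = 1 ∧ ∀ n, r (n + 1) = b (n + i) * r n - (⌊b (n + i) * r n⌋ : ℝ)

/-- The greedy expansion of 1 for the i-th shift of b has ultimately periodic digits (the
conclusion of S16397 for this shift). -/
def Periodic (b : ℕ → ℝ) (i : ℕ) : Prop := ∀ r : ℕ → ℝ, IsGreedy b i r →
  ∃ N T : ℕ, 0 < T ∧ ∀ n, N ≤ n → ⌊b (n + T + i) * r (n + T)⌋ = ⌊b (n + i) * r n⌋

/-- Parry (the conclusion of S16397). -/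
def IsParry (p : ℕ) (b : ℕ → ℝ) : Prop := ∀ i, i < p → Periodic b i

/-- α arises from b by keeping some entries b j, j < p, and replacing the others by three entries
with product b j, the first two of them in (1, 1 + ε); only such b j are replaced for which the
greedy expansion of 1 for the j-th shift of b is not ultimately periodic. The entry or the three
entries for b j start at the index κ j, and κ p is the length of α. -/
def Splits (ε : ℝ) (p : ℕ) (b : ℕ → ℝ) (κ : ℕ → ℕ) (α : ℕ → ℝ) : Prop :=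
  κ 0 = 0 ∧ κ p ≤ 3 * p ∧ ∀ j, j < p → (κ (j + 1) = κ j + 1 ∧ α (κ j) = b j) ∨
    (¬ Periodic b j ∧ κ (j + 1) = κ j + 3 ∧ 1 < α (κ j) ∧ α (κ j) < 1 + ε ∧
      1 < α (κ j + 1) ∧ α (κ j + 1) < 1 + ε ∧ α (κ j) * α (κ j + 1) * α (κ j + 2) = b j)

/-- The same up to ε: the entry or the product of the three entries for b j is within ε of b j. -/
def Near (ε : ℝ) (p : ℕ) (b : ℕ → ℝ) (κ : ℕ → ℕ) (α : ℕ → ℝ) : Prop :=
  κ 0 = 0 ∧ κ p ≤ 3 * p ∧ ∀ j, j < p → (κ (j + 1) = κ j + 1 ∧ |α (κ j) - b j| < ε) ∨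
    (κ (j + 1) = κ j + 3 ∧ 1 < α (κ j) ∧ α (κ j) < 1 + ε ∧ 1 < α (κ j + 1) ∧
      α (κ j + 1) < 1 + ε ∧ |α (κ j) * α (κ j + 1) * α (κ j + 2) - b j| < ε)

theorem length_le (p : ℕ) (κ : ℕ → ℕ) (h0 : κ 0 = 0) (h : ∀ j, j < p → κ (j + 1) ≤ κ j + 3) :
    ∀ j, j ≤ p → κ j ≤ 3 * j := by
  intro j
  induction j with
  | zero => intro _; simp [h0]
  | succ j ih =>
    intro hj
    have h1 := ih (by omega)
    have h2 := h j (by omega)
    omega

theorem main (β : ℝ) (hβ : IsSalem β) (p : ℕ) (b : ℕ → ℝ) (hb : IsAlt β p b) (hK : InField β b)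
    (ε : ℝ) (hε : 0 < ε) :
    ∃ (κ : ℕ → ℕ) (α : ℕ → ℝ), Splits ε p b κ α ∧
        IsAlt β (κ p) α ∧ InField β α ∧ IsParry (κ p) α := by
  obtain ⟨κ, α, ⟨h0, h1⟩, h2, h3, h4⟩ := Pool.Agent.TS.ALL_main β hβ p b hb hK ε hε
  refine ⟨κ, α, ⟨h0, length_le p κ h0 ?_ p le_rfl, h1⟩, h2, h3, h4⟩
  intro j hj
  rcases h1 j hj with h | h
  · omega
  · have := h.2.1
    omega

theorem result : ∀ β : ℝ, IsSalem β → ∀ (p : ℕ) (b : ℕ → ℝ), IsAlt β p b → ∀ ε : ℝ, 0 < ε →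
    (InField β b → ∃ (κ : ℕ → ℕ) (α : ℕ → ℝ), Splits ε p b κ α ∧
        IsAlt β (κ p) α ∧ InField β α ∧ IsParry (κ p) α) ∧
    ∃ (κ : ℕ → ℕ) (α : ℕ → ℝ), Near ε p b κ α ∧
        IsAlt β (κ p) α ∧ InField β α ∧ IsParry (κ p) α := by
  intro β hβ p b hb ε hε
  refine ⟨fun hK => main β hβ p b hb hK ε hε, ?_⟩
  obtain ⟨b', hb', hK', hclose⟩ := Pool.Agent.PX.FIN_approx β p b hb ε hε
  obtain ⟨κ, α, ⟨h0, hle, h1⟩, h2, h3, h4⟩ := main β hβ p b' hb' hK' ε hε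
  refine ⟨κ, α, ⟨h0, hle, fun j hj => ?_⟩, h2, h3, h4⟩
  rcases h1 j hj with ⟨h5, h6⟩ | ⟨_, h5, h6, h7, h8, h9, h10⟩
  · left
    exact ⟨h5, by rw [h6]; exact hclose j⟩
  · right
    exact ⟨h5, h6, h7, h8, h9, by rw [h10]; exact hclose j⟩

end Pool.Agent.Results.MP_2b41e9_nt.ThreeSplit
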